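import Pool.Agent.P.MP_405cad_co.Rate

/-! Total influence of a monotone Boolean function is at most `192 s / sqrt (log₂ s)`. -/

namespace Pool.Agent.Results.MP_405cad_co.SqrtLog

/-- the influence of coordinate `i`: the probability, for uniform `x`, that negating the `i`-th
coordinate of `x` changes the value of `f` -/
noncomputable def influence {n : ℕ} (f : (Fin n → Bool) → Bool) (i : Fin n) : ℝ :=
  ((Finset.univ.filter fun x : Fin n → Bool => f (Function.update x i (!(x i))) ≠ f x).card : ℝ)
    / 2 ^ n

/-- the maximum sensitivity: the largest number, over all inputs `x`, of coordinates whose negation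
changes the value of `f` -/
def maxSens {n : ℕ} (f : (Fin n → Bool) → Bool) : ℕ :=
  Finset.univ.sup fun x : Fin n → Bool =>
    (Finset.univ.filter fun i : Fin n => f (Function.update x i (!(x i))) ≠ f x).card

theorem result (n : ℕ) (f : (Fin n → Bool) → Bool) (hf : Monotone f) :
    (∑ i, influence f i) * Real.sqrt (Real.logb 2 (maxSens f)) ≤ 192 * (maxSens f : ℝ) := by
  have hs : ∀ x, Pool.Agent.P.MP_405cad_co.sens f x
      = ((Finset.univ.filter fun i : Fin n => f (Function.update x i (!(x i))) ≠ f x).card : ℝ) := by
    intro x
    rw [Finset.card_filter]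
    push_cast
    rfl
  have h1 := Pool.Agent.P.MP_405cad_co.rate_sqrt (S := maxSens f) hf fun x => by
    rw [hs]
    exact_mod_cast Finset.le_sup (f := fun x : Fin n → Bool =>
      (Finset.univ.filter fun i : Fin n => f (Function.update x i (!(x i))) ≠ f x).card)
      (Finset.mem_univ x)
  have h2 : Pool.Agent.P.MP_405cad_co.II f = ∑ i, influence f i := by
    refine Finset.sum_congr rfl fun i _ => ?_
    unfold Pool.Agent.P.MP_405cad_co.infl influence
    rw [Pool.Agent.P.MP_405cad_co.E_eq, Finset.card_filter]
    push_cast
    rfl
  rwa [h2] at h1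

end Pool.Agent.Results.MP_405cad_co.SqrtLog
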